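import Pool.Agent.Helper8.PLK.Zr
import Pool.Agent.Helper8.PLK.Exh

/-! COMPLETENESS: the informations below a given one have representatives with a uniform number of cells; Cauchy
sequences of informations below a given one converge. -/

set_option autoImplicit false

namespace Pool.Agent.Helper8.DSC

open Finset Filter Topology Pool.Agent.Helper69.RK Pool.Agent.Helper31.EC Pool.Agent.Helper8.PLK

noncomputable section

open Sp

section fin

variable {Ω α γ : Type} [Fintype Ω]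

open Classical in
/-- there are at most `2 ^ c` values of density at most `c` in a cell -/
theorem card_small (μ : Ω → ℝ) (f : Ω → α) (g : Ω → γ) (hμ : ∀ ω, 0 ≤ μ ω) (c : ℝ) (ω : Ω) (hω : μ ω ≠ 0) :
    ((((univ : Finset Ω).filter (fun ω' => (μ ω' ≠ 0 ∧ g ω' = g ω) ∧ den μ f g ω' ≤ c)).image f).card : ℝ) ≤
      2 ^ c := by
  set T := ((univ : Finset Ω).filter (fun ω' => (μ ω' ≠ 0 ∧ g ω' = g ω) ∧ den μ f g ω' ≤ c)).image f with hT
  have hp : 0 < Pool.Agent.Helper69.RK.pr μ g ω := e1_pr_pos μ g hμ ω hω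
  have h1 : ∀ a ∈ T, 2 ^ (-c) * Pool.Agent.Helper69.RK.pr μ g ω ≤ ∑ ω', if f ω' = a ∧ g ω' = g ω then μ ω' else 0 := by
    intro a ha
    rw [hT, Finset.mem_image] at ha
    obtain ⟨ω1, h2, rfl⟩ := ha
    rw [Finset.mem_filter] at h2
    obtain ⟨-, ⟨h3, h4⟩, h5⟩ := h2
    have e1 : (∑ ω', if f ω' = f ω1 ∧ g ω' = g ω then μ ω' else 0) =
        Pool.Agent.Helper69.RK.pr μ (fun ω' => (f ω', g ω')) ω1 := by
      rw [e1_pr_eq]
      apply Finset.sum_congr rfl
      intro ω' _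
      by_cases h : f ω' = f ω1 ∧ g ω' = g ω
      · rw [if_pos h, if_pos (by rw [h.1, h.2, h4])]
      · rw [if_neg h, if_neg]
        intro hc
        rw [Prod.mk.injEq] at hc
        exact h ⟨hc.1, hc.2.trans h4⟩
    rw [e1]
    have p1 : 0 < Pool.Agent.Helper69.RK.pr μ (fun ω' => (f ω', g ω')) ω1 := e1_pr_pos μ _ hμ ω1 h3
    have e2 : Pool.Agent.Helper69.RK.pr μ g ω = Pool.Agent.Helper69.RK.pr μ g ω1 := (e1_pr_atom μ g ω1 ω h4).symm
    rw [e2] at hp ⊢
    unfold den at h5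
    have h6 : Real.logb 2 (2 ^ (-c) * Pool.Agent.Helper69.RK.pr μ g ω1) ≤
        Real.logb 2 (Pool.Agent.Helper69.RK.pr μ (fun ω' => (f ω', g ω')) ω1) := by
      rw [Real.logb_mul (by positivity) hp.ne', Real.logb_rpow (by norm_num) (by norm_num)]
      linarith
    exact (Real.logb_le_logb (by norm_num) (by positivity) p1).mp h6
  have h2 : ∑ a ∈ T, (∑ ω', if f ω' = a ∧ g ω' = g ω then μ ω' else 0) ≤ Pool.Agent.Helper69.RK.pr μ g ω := by
    rw [Finset.sum_comm, e1_pr_eq]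
    apply Finset.sum_le_sum
    intro ω' _
    by_cases h : g ω' = g ω
    · rw [if_pos h]
      have e3 : ∀ a, (if f ω' = a ∧ g ω' = g ω then μ ω' else 0) = if f ω' = a then μ ω' else 0 := by
        intro a
        by_cases h' : f ω' = a
        · rw [if_pos ⟨h', h⟩, if_pos h']
        · rw [if_neg (fun hc => h' hc.1), if_neg h']
      rw [Finset.sum_congr rfl fun a _ => e3 a, Finset.sum_ite_eq T (f ω') (fun _ => μ ω')]
      split_ifs
      · exact le_rfl
      · exact hμ ω'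
    · rw [if_neg h]
      apply le_of_eq
      apply Finset.sum_eq_zero
      intro a _
      rw [if_neg (fun hc => h hc.2)]
  have h3 := (Finset.card_nsmul_le_sum T _ _ h1).trans h2
  rw [nsmul_eq_mul, ← mul_assoc] at h3
  have h4 : (T.card : ℝ) * 2 ^ (-c) ≤ 1 := by
    by_contra hc
    push Not at hc
    nlinarith
  have h5 : (2 : ℝ) ^ (-c) * 2 ^ c = 1 := by
    rw [← Real.rpow_add (by norm_num), neg_add_cancel, Real.rpow_zero]
  calc (T.card : ℝ) = (T.card : ℝ) * 2 ^ (-c) * 2 ^ c := by rw [mul_assoc, h5, mul_one]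
    _ ≤ 1 * 2 ^ c := mul_le_mul_of_nonneg_right h4 (by positivity)
    _ = 2 ^ c := one_mul _

open Classical in
/-- number of values of a truncated function -/
theorem nvf_opt (μ : Ω → ℝ) (f : Ω → α) (g : Ω → γ) (P : Ω → Prop) (tr : Ω → Option α)
    (h1 : ∀ ω, P ω → tr ω = some (f ω)) (h2 : ∀ ω, ¬ P ω → tr ω = none) (ω : Ω) :
    nvf μ tr g ω ≤
      (((univ : Finset Ω).filter (fun ω' => (μ ω' ≠ 0 ∧ g ω' = g ω) ∧ P ω')).image f).card + 1 := by
  unfold nvf
  refine (Finset.card_le_card (t := (((univ : Finset Ω).filter (fun ω' => (μ ω' ≠ 0 ∧ g ω' = g ω) ∧ P ω')).image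
    f).image some ∪ {none}) ?_).trans ?_
  · intro q hq
    obtain ⟨ω', hω', rfl⟩ := e3_mem_image hq
    rw [Finset.mem_filter] at hω'
    rw [Finset.mem_union]
    by_cases hg : P ω'
    · left
      rw [Finset.mem_image]
      refine ⟨f ω', ?_, (h1 ω' hg).symm⟩
      rw [Finset.mem_image]
      exact ⟨ω', Finset.mem_filter.mpr ⟨Finset.mem_univ _, hω'.2, hg⟩, rfl⟩
    · right
      rw [Finset.mem_singleton]
      exact h2 ω' hg
  · refine (Finset.card_union_le _ _).trans ?_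
    rw [Finset.card_singleton]
    exact Nat.add_le_add_right Finset.card_image_le 1

theorem nvf_opt_le (μ : Ω → ℝ) (f : Ω → α) (g : Ω → γ) (P : Ω → Prop) (tr : Ω → Option α)
    (h1 : ∀ ω, P ω → tr ω = some (f ω)) (h2 : ∀ ω, ¬ P ω → tr ω = none) (hμ : ∀ ω, 0 ≤ μ ω) (c : ℝ)
    (hP : ∀ ω, P ω → den μ f g ω ≤ c) (ω : Ω) (hω : μ ω ≠ 0) : (nvf μ tr g ω : ℝ) ≤ 2 ^ c + 1 := by
  classical
  have h3 := nvf_opt μ f g P tr h1 h2 ω
  have h4 := card_small μ f g hμ c ω hω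
  have h5 : (((univ : Finset Ω).filter (fun ω' => (μ ω' ≠ 0 ∧ g ω' = g ω) ∧ P ω')).image f).card ≤
      (((univ : Finset Ω).filter (fun ω' => (μ ω' ≠ 0 ∧ g ω' = g ω) ∧ den μ f g ω' ≤ c)).image f).card := by
    apply Finset.card_le_card
    apply Finset.image_subset_image
    intro ω' hω'
    rw [Finset.mem_filter] at hω' ⊢
    exact ⟨hω'.1, hω'.2.1, hP _ hω'.2.2⟩
  have h6 : (nvf μ tr g ω : ℝ) ≤
      ((((univ : Finset Ω).filter (fun ω' => (μ ω' ≠ 0 ∧ g ω' = g ω) ∧ den μ f g ω' ≤ c)).image f).card : ℝ) + 1 := by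
    have h7 := h3.trans (Nat.add_le_add_right h5 1)
    exact_mod_cast h7
  linarith

theorem nvf_opt_two (μ : Ω → ℝ) (f : Ω → α) (g : Ω → γ) (P : Ω → Prop) (tr : Ω → Option α)
    (h1 : ∀ ω, P ω → tr ω = some (f ω)) (h2 : ∀ ω, ¬ P ω → tr ω = none) (ω : Ω)
    (hf : ∀ ω', g ω' = g ω → f ω' = f ω) : (nvf μ tr g ω : ℝ) ≤ 2 := by
  classical
  have h3 := nvf_opt μ f g P tr h1 h2 ω
  have h4 : (((univ : Finset Ω).filter (fun ω' => (μ ω' ≠ 0 ∧ g ω' = g ω) ∧ P ω')).image f).card ≤ 1 := by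
    rw [Finset.card_le_one]
    intro a ha b hb
    rw [Finset.mem_image] at ha hb
    obtain ⟨a', ha', rfl⟩ := ha
    obtain ⟨b', hb', rfl⟩ := hb
    rw [Finset.mem_filter] at ha' hb'
    rw [hf a' ha'.2.1.2, hf b' hb'.2.1.2]
  have h5 := h3.trans (Nat.add_le_add_right h4 1)
  exact_mod_cast h5

end fin

section fsp

variable (F : FSp) (A U : Setoid F.Ω) (c : ℝ)

/-- the event that the density of `A` over `U` is small -/
def good (ω : F.Ω) : Prop :=
  den F.μ (fun ω => (Quotient.mk A ω : Quotient A)) (fun ω => (Quotient.mk (U ⊓ F.Z) ω : Quotient (U ⊓ F.Z))) ω ≤ c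

open Classical in
/-- `A` on the event that its density is small -/
def trf (ω : F.Ω) : Option (Quotient A) := if good F A U c ω then some (Quotient.mk A ω) else none

/-- the truncated partition -/
def trS : Setoid F.Ω := Setoid.ker (trf F A U c)

theorem trf_pos (ω : F.Ω) (h : good F A U c ω) : trf F A U c ω = some (Quotient.mk A ω) := by
  unfold trf
  rw [if_pos h]

theorem trf_neg (ω : F.Ω) (h : ¬ good F A U c ω) : trf F A U c ω = none := by
  unfold trf
  rw [if_neg h]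

theorem trf_card (ω : F.Ω) (hω : F.μ ω ≠ 0) :
    (nvf F.μ (trf F A U c) (fun ω => (Quotient.mk (U ⊓ F.Z) ω : Quotient (U ⊓ F.Z))) ω : ℝ) ≤ 2 ^ c + 1 :=
  nvf_opt_le F.μ (fun ω => (Quotient.mk A ω : Quotient A)) (fun ω => (Quotient.mk (U ⊓ F.Z) ω : Quotient (U ⊓ F.Z)))
    (good F A U c) (trf F A U c) (trf_pos F A U c) (trf_neg F A U c) F.nn c (fun _ h => h) ω hω

theorem trS_nv (N : ℝ) (h : ∀ ω, F.μ ω ≠ 0 → (nv F U ω : ℝ) ≤ N) (ω : F.Ω) (hω : F.μ ω ≠ 0) :
    (nv F (trS F A U c) ω : ℝ) ≤ N * (2 ^ c + 1) := by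
  have h1 := nvf_chain F.μ (fun ω => (trf F A U c ω, (Quotient.mk U ω : Quotient U))) Prod.fst Prod.snd
    (fun ω => (Quotient.mk F.Z ω : Quotient F.Z)) (fun ω => (Quotient.mk (U ⊓ F.Z) ω : Quotient (U ⊓ F.Z))) ω
    (fun x y h h' => Prod.ext h h') (fun ω ω' h h' => Quotient.sound ⟨Quotient.exact h, Quotient.exact h'⟩)
    (2 ^ c + 1) (fun ω' h' _ => trf_card F A U c ω' h')
  have h2 : (nv F (trS F A U c) ω : ℝ) ≤ (nvf F.μ (fun ω => (trf F A U c ω, (Quotient.mk U ω : Quotient U)))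
      (fun ω => (Quotient.mk F.Z ω : Quotient F.Z)) ω : ℝ) := by
    rw [Nat.cast_le]
    unfold trS
    rw [nv_ker]
    apply nvf_mono
    intro ω₁ ω₂ _ _ _ _ h
    exact (Prod.ext_iff.mp h).1
  refine (h2.trans h1).trans ?_
  exact mul_le_mul_of_nonneg_right (h ω hω) (by positivity)

theorem trS_e1 : F.e (trS F A U c) (A ⊓ F.Z) ≤ 1 := by
  have h0 : F.e (trS F A U c) (A ⊓ F.Z) = CH F.μ (trf F A U c) (Quotient.mk (A ⊓ F.Z)) := by
    apply F.e_congr
    · intro ω ω' _ _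
      exact Iff.rfl
    · intro ω ω' _ _
      exact (Quotient.eq (r := A ⊓ F.Z)).symm
  rw [h0]
  have h1 := st_E3.1 F.Ω _ _ F.μ (trf F A U c) (Quotient.mk (A ⊓ F.Z)) (fun _ => 2) F.nn (fun ω _ =>
    nvf_opt_two F.μ (fun ω => (Quotient.mk A ω : Quotient A)) (Quotient.mk (A ⊓ F.Z)) (good F A U c)
      (trf F A U c) (trf_pos F A U c) (trf_neg F A U c) ω (fun ω' h =>
        Quotient.sound ((Quotient.eq (r := A ⊓ F.Z)).mp h).1))
  refine h1.trans ?_
  rw [← Finset.sum_mul, Real.logb_self_eq_one (by norm_num), mul_one]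
  exact le_of_eq F.ms

theorem good_pb : F.pb (fun ω => ¬ good F A U c ω) * c ≤ F.e A (U ⊓ F.Z) := by
  have h1 : F.e A (U ⊓ F.Z) = ∑ ω, F.μ ω * den F.μ (fun ω => (Quotient.mk A ω : Quotient A))
      (fun ω => (Quotient.mk (U ⊓ F.Z) ω : Quotient (U ⊓ F.Z))) ω := rfl
  rw [h1]
  have h2 : F.pb (fun ω => ¬ good F A U c ω) = ∑ ω, res F.μ (fun ω => ¬ good F A U c ω) ω := rfl
  rw [h2, Finset.sum_mul]
  apply Finset.sum_le_sum
  intro ω _
  by_cases h : F.μ ω = 0
  · have h3 : res F.μ (fun ω => ¬ good F A U c ω) ω = 0 := by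
      unfold res
      split_ifs
      · exact h
      · rfl
    rw [h3, h, zero_mul, zero_mul]
  · have h4 := den_nonneg F.μ (fun ω => (Quotient.mk A ω : Quotient A))
      (fun ω => (Quotient.mk (U ⊓ F.Z) ω : Quotient (U ⊓ F.Z))) F.nn ω h
    by_cases hg : good F A U c ω
    · rw [res_neg F.μ (fun ω => ¬ good F A U c ω) ω (not_not.mpr hg), zero_mul]
      exact mul_nonneg (F.nn ω) h4
    · rw [res_pos F.μ (fun ω => ¬ good F A U c ω) ω hg]
      apply mul_le_mul_of_nonneg_left _ (F.nn ω)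
      unfold good at hg
      push Not at hg
      exact hg.le

theorem trS_e2 (N : ℝ) (hN : 1 ≤ N) (h : ∀ ω, F.μ ω ≠ 0 → (nv F A ω : ℝ) ≤ N) :
    F.e A (trS F A U c ⊓ F.Z) ≤ F.pb (fun ω => ¬ good F A U c ω) * Real.logb 2 N + 2 := by
  have h1 := part_le F (fun ω => ¬ good F A U c ω) (fun ω => (Quotient.mk A ω : Quotient A))
    (fun ω => (Quotient.mk (trS F A U c ⊓ F.Z) ω : Quotient (trS F A U c ⊓ F.Z))) N hN (by
    intro ω hω
    refine le_trans ?_ (h ω hω)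
    rw [Nat.cast_le]
    unfold nv
    apply nvf_le_of_rel
    intro ω' _ h2
    have h3 : (trS F A U c ⊓ F.Z) ω' ω := (Quotient.eq (r := trS F A U c ⊓ F.Z)).mp h2
    exact Quotient.sound h3.2)
  refine le_trans ?_ h1
  have h2 : F.e A (trS F A U c ⊓ F.Z) = ∑ ω, F.μ ω * den F.μ (fun ω => (Quotient.mk A ω : Quotient A))
      (fun ω => (Quotient.mk (trS F A U c ⊓ F.Z) ω : Quotient (trS F A U c ⊓ F.Z))) ω := rfl
  rw [h2]
  apply Finset.sum_le_sum
  intro ω _
  by_cases hg : good F A U c ω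
  · rw [res_neg F.μ (fun ω => ¬ good F A U c ω) ω (not_not.mpr hg), zero_mul]
    apply le_of_eq
    have h3 : den F.μ (fun ω => (Quotient.mk A ω : Quotient A))
        (fun ω => (Quotient.mk (trS F A U c ⊓ F.Z) ω : Quotient (trS F A U c ⊓ F.Z))) ω = 0 := by
      unfold den
      rw [sub_eq_zero]
      congr 1
      apply e1_pr_congr
      intro ω' _
      rw [Prod.mk.injEq]
      constructor
      · intro h4
        refine ⟨?_, h4⟩
        have h5 : (trS F A U c ⊓ F.Z) ω' ω := (Quotient.eq (r := trS F A U c ⊓ F.Z)).mp h4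
        have h6 : trf F A U c ω' = trf F A U c ω := h5.1
        unfold trf at h6
        rw [if_pos hg] at h6
        by_cases hg' : good F A U c ω'
        · rw [if_pos hg'] at h6
          exact Option.some_injective _ h6
        · rw [if_neg hg'] at h6
          exact absurd h6 (by simp)
      · exact fun h4 => h4.2
    rw [h3, mul_zero]
  · rw [res_pos F.μ (fun ω => ¬ good F A U c ω) ω hg]

end fsp

variable {S : Sp}

/-- the informations below a given one have representatives with a uniform number of cells -/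
theorem trunc (u : S.L) : ∃ C : ℝ, ∀ x : S.L, x ≤ u → ∃ A : S.Inf, cl A = x ∧
    ∀ᶠ k in UF, ∀ ω, (S.F k).μ ω ≠ 0 → (nv (S.F k) (A.1 k) ω : ℝ) ≤ 2 ^ (C * (S.F k).n) := by
  induction u using Sp.cl_ind with | _ U
  obtain ⟨C, hC⟩ := U.2
  refine ⟨C + 2, fun x hx => ?_⟩
  induction x using Sp.cl_ind with | _ A
  have hn1 : ∀ᶠ k in UF, 1 ≤ (S.F k).n := S.lim.eventually_ge_atTop 1
  have hcount : ∀ᶠ k in UF, ∀ ω, (S.F k).μ ω ≠ 0 →
      (nv (S.F k) (trS (S.F k) (A.1 k) (U.1 k) (S.F k).n) ω : ℝ) ≤ 2 ^ ((C + 2) * (S.F k).n) := by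
    filter_upwards [hC, hn1] with k h1 h2 ω hω
    refine (trS_nv (S.F k) (A.1 k) (U.1 k) (S.F k).n _ h1 ω hω).trans ?_
    have h3 : (1 : ℝ) ≤ 2 ^ (S.F k).n := Real.one_le_rpow (by norm_num) (by linarith)
    have h4 : (2 : ℝ) ^ (S.F k).n + 1 ≤ 2 ^ (S.F k).n * 2 ^ (S.F k).n := by
      have h5 : (2 : ℝ) ≤ 2 ^ (S.F k).n := by
        calc (2 : ℝ) = 2 ^ (1 : ℝ) := (Real.rpow_one 2).symm
          _ ≤ 2 ^ (S.F k).n := Real.rpow_le_rpow_of_exponent_le (by norm_num) h2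
      nlinarith
    have h6 : (2 : ℝ) ^ ((C + 2) * (S.F k).n) = 2 ^ (C * (S.F k).n) * (2 ^ (S.F k).n * 2 ^ (S.F k).n) := by
      rw [← Real.rpow_add (by norm_num), ← Real.rpow_add (by norm_num)]
      congr 1; ring
    rw [h6]
    exact mul_le_mul_of_nonneg_left h4 (by positivity)
  obtain ⟨B, hB⟩ : ∃ B : S.Inf, B.1 = fun k => trS (S.F k) (A.1 k) (U.1 k) (S.F k).n := ⟨⟨_, ⟨C + 2, hcount⟩⟩, rfl⟩
  refine ⟨B, ?_, ?_⟩
  swap
  · filter_upwards [hcount] with k hk ω hω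
    rw [hB]
    exact hk ω hω
  have hAU : Tendsto (S.rt A.1 U.1) UF (𝓝 0) := hx
  apply le_antisymm
  · rw [cl_le, Inf.le_def]
    refine squeeze_zero' (Eventually.of_forall fun k => rt_nonneg _ _ k) (Eventually.of_forall fun k => ?_)
      (S.div_n_tendsto 1)
    unfold rt
    rw [hB]
    exact div_le_div_of_nonneg_right (trS_e1 (S.F k) (A.1 k) (U.1 k) (S.F k).n) (S.F k).pos.le
  · rw [cl_le, Inf.le_def]
    obtain ⟨D, hD⟩ := A.2
    have h1 : Tendsto (fun k => |D| * S.rt A.1 U.1 k + 2 / (S.F k).n) UF (𝓝 0) := by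
      have h2 := (hAU.const_mul |D|).add (S.div_n_tendsto 2)
      rwa [mul_zero, add_zero] at h2
    refine squeeze_zero' (Eventually.of_forall fun k => rt_nonneg _ _ k) ?_ h1
    filter_upwards [hD] with k hk
    have hn := (S.F k).pos
    have h2 := trS_e2 (S.F k) (A.1 k) (U.1 k) (S.F k).n (2 ^ (|D| * (S.F k).n))
      (Real.one_le_rpow (by norm_num) (by positivity)) (fun ω hω => (hk ω hω).trans
        (Real.rpow_le_rpow_of_exponent_le (by norm_num) (mul_le_mul_of_nonneg_right (le_abs_self D) hn.le)))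
    rw [Real.logb_rpow (by norm_num) (by norm_num)] at h2
    have h3 := good_pb (S.F k) (A.1 k) (U.1 k) (S.F k).n
    have h4 : S.rt A.1 U.1 k * (S.F k).n = (S.F k).e (A.1 k) (U.1 k ⊓ (S.F k).Z) := by
      unfold rt
      rw [div_mul_cancel₀ _ hn.ne']
    unfold rt
    rw [hB, div_le_iff₀ hn, add_mul, div_mul_cancel₀ _ hn.ne']
    rw [← h4] at h3
    have h5 : (S.F k).pb (fun ω => ¬ good (S.F k) (A.1 k) (U.1 k) (S.F k).n ω) ≤ S.rt A.1 U.1 k :=
      le_of_mul_le_mul_right h3 hn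
    have h6 : (S.F k).pb (fun ω => ¬ good (S.F k) (A.1 k) (U.1 k) (S.F k).n ω) * (|D| * (S.F k).n) ≤
        S.rt A.1 U.1 k * (|D| * (S.F k).n) := mul_le_mul_of_nonneg_right h5 (by positivity)
    show (S.F k).e (A.1 k) (trS (S.F k) (A.1 k) (U.1 k) (S.F k).n ⊓ (S.F k).Z) ≤ |D| * S.rt A.1 U.1 k * (S.F k).n + 2
    calc _ ≤ _ := h2
      _ ≤ S.rt A.1 U.1 k * (|D| * (S.F k).n) + 2 := by linarith
      _ = _ := by ring

/-- **COMPLETENESS** below `u` -/
theorem cauchy_le (u : S.L) (x : ℕ → S.L) (hx : ∀ n, x n ≤ u) (e : ℕ → ℝ)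
    (hc : ∀ n m, n ≤ m → h (x n) (x m) + h (x m) (x n) ≤ e n) :
    ∃ y : S.L, y ≤ u ∧ ∀ n, h (x n) y + h y (x n) ≤ e n := by
  obtain ⟨C, hC⟩ := trunc u
  choose A hA hv using fun n => hC (x n) (hx n)
  induction u using Sp.cl_ind with | _ U
  -- the functionals
  obtain ⟨J, hJ, hf, hE⟩ := diag_in_place
    (fun i j k => if i = 0 then S.rt (A j).1 U.1 k else S.rt (A (i - 1)).1 (A j).1 k + S.rt (A j).1 (A (i - 1)).1 k)
    (fun _ j k => ∀ ω, (S.F k).μ ω ≠ 0 → (nv (S.F k) ((A j).1 k) ω : ℝ) ≤ 2 ^ (C * (S.F k).n))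
    (fun i j => by
      by_cases h : i = 0
      · simp only [if_pos h]
        exact UB_rt _ _
      · simp only [if_neg h]
        exact (UB_rt _ _).add (UB_rt _ _))
    (fun _ j => hv j)
  have hB : S.VB (fun k => (A (J k)).1 k) := ⟨C, hE 0⟩
  obtain ⟨B, hB'⟩ : ∃ B : S.Inf, B.1 = fun k => (A (J k)).1 k := ⟨⟨_, hB⟩, rfl⟩
  refine ⟨cl B, ?_, fun n => ?_⟩
  · rw [cl_le, Inf.le_def]
    have h1 := hf 0
    have h2 : ∀ j, ul (S.rt (A j).1 U.1) = 0 := by
      intro j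
      rw [← h_cl, hA j]
      exact h_zero (hx j)
    simp only [if_true] at h1
    have h3 : Tendsto (fun k => S.rt (A (J k)).1 U.1 k) UF (𝓝 0) := by
      refine h1.congr fun k => ?_
      rw [h2, sub_zero]
    refine h3.congr fun k => ?_
    unfold rt
    rw [hB']
  · rw [← hA n, h_cl, h_cl, ← ul_add (UB_rt _ _) (UB_rt _ _)]
    have h1 := hf (n + 1)
    simp only [Nat.add_eq_zero_iff, one_ne_zero, and_false, if_false, Nat.add_sub_cancel] at h1
    have h4 := (ul_tendsto ((UB_rt (A n) B.1).add (UB_rt B (A n).1)))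
    have h5 : ∀ᶠ k in UF, ul (fun k' => S.rt (A n).1 (A (J k)).1 k' + S.rt (A (J k)).1 (A n).1 k') ≤ e n := by
      filter_upwards [hJ.eventually_ge_atTop n] with k hk
      rw [ul_add (UB_rt _ _) (UB_rt _ _), ← h_cl, ← h_cl, hA, hA]
      exact hc n (J k) hk
    have h6 : (fun k => S.rt (A n).1 B.1 k + S.rt B.1 (A n).1 k) =
        fun k => S.rt (A n).1 (A (J k)).1 k + S.rt (A (J k)).1 (A n).1 k := by
      funext k
      unfold rt
      rw [hB']
    have h7 := le_of_tendsto_of_tendsto h4 (h1.add_const (e n)) (by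
      rw [h6]
      filter_upwards [h5] with k hk
      linarith)
    rwa [zero_add] at h7

end

end Pool.Agent.Helper8.DSC
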