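import Pool.Agent.Helper8.DSC.Desc

/-! DESCENT below an information of the space. -/

set_option autoImplicit false

namespace Pool.Agent.Helper8.DSC

open Finset Filter Topology Pool.Agent.Helper69.RK Pool.Agent.Helper31.EC

noncomputable section

open Sp

section fin

variable {Ω Ω' : Type} [Fintype Ω] [Fintype Ω'] (π : Ω' → Ω) (μ : Ω' → ℝ)

/-- a good selection, three entropies -/
theorem exists_sel3 (h0 : ∀ y, 0 ≤ μ y) (y0 : Ω') {β γ β' γ' β'' γ'' : Type} (F : Ω' × Ω' → β) (G : Ω' × Ω' → γ)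
    (F' : Ω' × Ω' → β') (G' : Ω' × Ω' → γ') (F'' : Ω' × Ω' → β'') (G'' : Ω' × Ω' → γ'') (t : ℝ) (ht : 0 ≤ t) :
    ∃ s : Ω → Ω', (∀ y, μ y ≠ 0 → π (s (π y)) = π y ∧ μ (s (π y)) ≠ 0) ∧
      CH μ (fun y => F (y, s (π y))) (fun y => G (y, s (π y))) +
        CH μ (fun y => F' (y, s (π y))) (fun y => G' (y, s (π y))) +
        t * CH μ (fun y => F'' (y, s (π y))) (fun y => G'' (y, s (π y))) ≤
      CH (amw μ μ π π) F G + CH (amw μ μ π π) F' G' + t * CH (amw μ μ π π) F'' G'' := by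
  classical
  set R := CH (amw μ μ π π) F G + CH (amw μ μ π π) F' G' + t * CH (amw μ μ π π) F'' G'' with hR
  set c : (Ω → Ω') → ℝ := fun s => CH μ (fun y => F (y, s (π y))) (fun y => G (y, s (π y))) +
        CH μ (fun y => F' (y, s (π y))) (fun y => G' (y, s (π y))) +
        t * CH μ (fun y => F'' (y, s (π y))) (fun y => G'' (y, s (π y))) with hc
  have h1 : ∑ s, pw (fib π μ y0) s * c s ≤ R := by
    have h2 := sel_avg π μ h0 y0 F G
    have h3 := sel_avg π μ h0 y0 F' G'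
    have h3' := mul_le_mul_of_nonneg_left (sel_avg π μ h0 y0 F'' G'') ht
    have h4 : ∑ s, pw (fib π μ y0) s * c s =
        ∑ s : Ω → Ω', pw (fib π μ y0) s * CH μ (fun y => F (y, s (π y))) (fun y => G (y, s (π y))) +
        ∑ s : Ω → Ω', pw (fib π μ y0) s * CH μ (fun y => F' (y, s (π y))) (fun y => G' (y, s (π y))) +
        t * ∑ s : Ω → Ω', pw (fib π μ y0) s * CH μ (fun y => F'' (y, s (π y))) (fun y => G'' (y, s (π y))) := by
      rw [Finset.mul_sum, ← Finset.sum_add_distrib, ← Finset.sum_add_distrib]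
      refine Finset.sum_congr rfl fun s _ => ?_
      rw [hc]
      ring
    rw [h4]
    linarith
  have hn : ∀ s, 0 ≤ pw (fib π μ y0) s := pw_nonneg _ (fib_nonneg π μ h0 y0)
  have hs : ∑ s, pw (fib π μ y0) s = 1 := pw_sum _ (fib_sum π μ y0)
  have h5 : ∃ s, pw (fib π μ y0) s ≠ 0 ∧ c s ≤ R := by
    by_contra hcon
    push Not at hcon
    have h6 : ∑ s, pw (fib π μ y0) s * R < ∑ s, pw (fib π μ y0) s * c s := by
      apply Finset.sum_lt_sum
      · intro s _
        by_cases h7 : pw (fib π μ y0) s = 0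
        · rw [h7, zero_mul, zero_mul]
        · exact mul_le_mul_of_nonneg_left (hcon s h7).le (hn s)
      · by_contra h8
        push Not at h8
        have h9 : ∀ s, pw (fib π μ y0) s = 0 := by
          intro s
          by_contra h7
          have h10 := h8 s (Finset.mem_univ s)
          have h11 := mul_lt_mul_of_pos_left (hcon s h7) (lt_of_le_of_ne (hn s) (Ne.symm h7))
          linarith
        rw [Finset.sum_eq_zero fun s _ => h9 s] at hs
        exact zero_ne_one hs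
    rw [← Finset.sum_mul, hs, one_mul] at h6
    linarith
  obtain ⟨s, h6, h7⟩ := h5
  refine ⟨s, fun y hy => ?_, h7⟩
  have h8 : fib π μ y0 (π y) (s (π y)) ≠ 0 := by
    intro h9
    exact h6 (Finset.prod_eq_zero (Finset.mem_univ (π y)) h9)
  exact fib_supp π μ h0 y0 y (s (π y)) hy h8

end fin

variable {W S : Sp}

/-- **DESCENT** below `u` -/
theorem desc_le (p : Pj W S) (x : W.L) (u : S.L) (hx : x ≤ p.map u) : ∃ y : S.L, y ≤ u ∧
    h (p.map y) x + h x (p.map y) ≤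
      h ((slf p).p1.map x) ((slf p).p2.map x) + h ((slf p).p2.map x) ((slf p).p1.map x) := by
  have hxu : (slf p).p2.map x ≤ (slf p).p1.map (p.map u) := by
    rw [slf_comm p u]
    exact (slf p).p2.map_mono hx
  induction x using Sp.cl_ind with | _ A
  induction u using Sp.cl_ind with | _ U
  -- the rates
  set bt : ℕ → ℝ := (slf p).sp.rt ((slf p).p2.mapI A).1 ((slf p).p1.mapI (p.mapI U)).1 with hbt
  have hbt0 : Tendsto bt UF (𝓝 0) := hxu
  have hbn : ∀ k, 0 ≤ bt k := fun k => rt_nonneg _ _ k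
  set r : ℕ → ℝ := fun k => Real.sqrt (bt k + 1 / (W.F k).n) with hr
  have hn : ∀ k, 0 < (W.F k).n := fun k => (W.F k).pos
  have hbr : ∀ k, 0 < bt k + 1 / (W.F k).n := fun k => add_pos_of_nonneg_of_pos (hbn k) (one_div_pos.mpr (hn k))
  have hr0 : ∀ k, 0 < r k := fun k => Real.sqrt_pos.mpr (hbr k)
  have hrt : Tendsto r UF (𝓝 0) := by
    have h1 := hbt0.add (W.div_n_tendsto 1)
    rw [add_zero] at h1
    have h2 := h1.sqrt
    rwa [Real.sqrt_zero] at h2
  have hrb : ∀ k, (r k)⁻¹ * bt k ≤ r k := by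
    intro k
    have h1 : r k * r k = bt k + 1 / (W.F k).n := Real.mul_self_sqrt (hbr k).le
    have h2 : 0 < 1 / (W.F k).n := one_div_pos.mpr (hn k)
    rw [inv_mul_le_iff₀ (hr0 k), h1]
    linarith
  -- the selections
  have hsel : ∀ k, ∃ s : (S.F k).Ω → (W.F k).Ω, (∀ y, (W.F k).μ y ≠ 0 → p.π k (s (p.π k y)) = p.π k y ∧
      (W.F k).μ (s (p.π k y)) ≠ 0) ∧
      CH (W.F k).μ (fun y => (Quotient.mk (A.1 k) (s (p.π k y)) : Quotient (A.1 k)))
        (fun y => ((Quotient.mk (A.1 k) y : Quotient (A.1 k)), (Quotient.mk (W.F k).Z y : Quotient (W.F k).Z))) +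
      CH (W.F k).μ (fun y => (Quotient.mk (A.1 k) y : Quotient (A.1 k)))
        (fun y => ((Quotient.mk (A.1 k) (s (p.π k y)) : Quotient (A.1 k)), (Quotient.mk (W.F k).Z y : Quotient (W.F k).Z))) +
      (r k)⁻¹ * CH (W.F k).μ (fun y => (Quotient.mk (A.1 k) (s (p.π k y)) : Quotient (A.1 k)))
        (fun y => ((Quotient.mk (U.1 k) (p.π k y) : Quotient (U.1 k)), (Quotient.mk (W.F k).Z y : Quotient (W.F k).Z))) ≤
      CH (amw (W.F k).μ (W.F k).μ (p.π k) (p.π k)) (fun w => (Quotient.mk (A.1 k) w.2 : Quotient (A.1 k)))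
        (fun w => ((Quotient.mk (A.1 k) w.1 : Quotient (A.1 k)), (Quotient.mk (W.F k).Z w.1 : Quotient (W.F k).Z))) +
      CH (amw (W.F k).μ (W.F k).μ (p.π k) (p.π k)) (fun w => (Quotient.mk (A.1 k) w.1 : Quotient (A.1 k)))
        (fun w => ((Quotient.mk (A.1 k) w.2 : Quotient (A.1 k)), (Quotient.mk (W.F k).Z w.1 : Quotient (W.F k).Z))) +
      (r k)⁻¹ * CH (amw (W.F k).μ (W.F k).μ (p.π k) (p.π k)) (fun w => (Quotient.mk (A.1 k) w.2 : Quotient (A.1 k)))
        (fun w => ((Quotient.mk (U.1 k) (p.π k w.1) : Quotient (U.1 k)), (Quotient.mk (W.F k).Z w.1 : Quotient (W.F k).Z))) := by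
    intro k
    have hne : Nonempty (W.F k).Ω := by
      by_contra hc
      rw [not_nonempty_iff] at hc
      have h1 := (W.F k).ms
      unfold mass at h1
      rw [Finset.univ_eq_empty, Finset.sum_empty] at h1
      exact zero_ne_one h1
    obtain ⟨y0⟩ := hne
    exact exists_sel3 (p.π k) (W.F k).μ (W.F k).nn y0 (fun w => (Quotient.mk (A.1 k) w.2 : Quotient (A.1 k)))
      (fun w => ((Quotient.mk (A.1 k) w.1 : Quotient (A.1 k)), (Quotient.mk (W.F k).Z w.1 : Quotient (W.F k).Z)))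
      (fun w => (Quotient.mk (A.1 k) w.1 : Quotient (A.1 k)))
      (fun w => ((Quotient.mk (A.1 k) w.2 : Quotient (A.1 k)), (Quotient.mk (W.F k).Z w.1 : Quotient (W.F k).Z)))
      (fun w => (Quotient.mk (A.1 k) w.2 : Quotient (A.1 k)))
      (fun w => ((Quotient.mk (U.1 k) (p.π k w.1) : Quotient (U.1 k)), (Quotient.mk (W.F k).Z w.1 : Quotient (W.F k).Z)))
      (r k)⁻¹ (inv_nonneg.mpr (hr0 k).le)
  choose s hs1 hs2 using hsel
  -- the support
  have hsup : ∀ k ω, (S.F k).μ ω ≠ 0 → p.π k (s k ω) = ω ∧ (W.F k).μ (s k ω) ≠ 0 := by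
    intro k ω hω
    obtain ⟨y, hy, rfl⟩ := p.exists_lift k ω hω
    exact hs1 k y hy
  -- the information
  have hB : S.VB (fun k => Setoid.ker fun ω => (Quotient.mk (A.1 k) (s k ω) : Quotient (A.1 k))) := by
    obtain ⟨C, hC⟩ := A.2
    refine ⟨C, ?_⟩
    filter_upwards [hC] with k hk ω hω
    obtain ⟨e1, e2⟩ := hsup k ω hω
    have h1 := hk (s k ω) e2
    rw [p.hn k] at h1
    refine le_trans ?_ h1
    rw [Nat.cast_le, Sp.nv_ker]
    unfold Sp.nv
    apply nvf_le_sel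
    intro ω' h2 h3
    obtain ⟨e3, e4⟩ := hsup k ω' h2
    refine ⟨s k ω', e4, Quotient.sound ?_, rfl⟩
    show (W.F k).Z (s k ω') (s k ω)
    rw [p.hZ k _ _ e4 e2, e3, e1]
    exact Quotient.exact h3
  obtain ⟨B, eB⟩ : ∃ B : S.Inf, B.1 = fun k => Setoid.ker fun ω => (Quotient.mk (A.1 k) (s k ω) : Quotient (A.1 k)) :=
    ⟨⟨_, hB⟩, rfl⟩
  have eB' : ∀ k, (p.mapI B).1 k = Setoid.comap (p.π k)
      (Setoid.ker fun ω => (Quotient.mk (A.1 k) (s k ω) : Quotient (A.1 k))) := by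
    intro k
    show Setoid.comap (p.π k) (B.1 k) = _
    rw [eB]
  -- the six entropies
  have c1 : ∀ k, (W.F k).e ((p.mapI B).1 k) (A.1 k ⊓ (W.F k).Z) =
      CH (W.F k).μ (fun y => (Quotient.mk (A.1 k) (s k (p.π k y)) : Quotient (A.1 k)))
        (fun y => ((Quotient.mk (A.1 k) y : Quotient (A.1 k)), (Quotient.mk (W.F k).Z y : Quotient (W.F k).Z))) := by
    intro k
    rw [eB']
    apply (W.F k).e_congr
    · intro ω ω' _ _
      exact Iff.rfl
    · intro ω ω' _ _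
      rw [Prod.mk.injEq]
      exact ⟨fun h => ⟨Quotient.sound h.1, Quotient.sound h.2⟩, fun h => ⟨Quotient.exact h.1, Quotient.exact h.2⟩⟩
  have c2 : ∀ k, (W.F k).e (A.1 k) ((p.mapI B).1 k ⊓ (W.F k).Z) =
      CH (W.F k).μ (fun y => (Quotient.mk (A.1 k) y : Quotient (A.1 k)))
        (fun y => ((Quotient.mk (A.1 k) (s k (p.π k y)) : Quotient (A.1 k)), (Quotient.mk (W.F k).Z y : Quotient (W.F k).Z))) := by
    intro k
    rw [eB']
    apply (W.F k).e_congr
    · intro ω ω' _ _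
      exact (Quotient.eq (r := A.1 k)).symm
    · intro ω ω' _ _
      rw [Prod.mk.injEq]
      exact ⟨fun h => ⟨h.1, Quotient.sound h.2⟩, fun h => ⟨h.1, Quotient.exact h.2⟩⟩
  have c5 : ∀ k, (W.F k).e ((p.mapI B).1 k) ((p.mapI U).1 k ⊓ (W.F k).Z) =
      CH (W.F k).μ (fun y => (Quotient.mk (A.1 k) (s k (p.π k y)) : Quotient (A.1 k)))
        (fun y => ((Quotient.mk (U.1 k) (p.π k y) : Quotient (U.1 k)), (Quotient.mk (W.F k).Z y : Quotient (W.F k).Z))) := by
    intro k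
    rw [eB']
    apply (W.F k).e_congr
    · intro ω ω' _ _
      exact Iff.rfl
    · intro ω ω' _ _
      rw [Prod.mk.injEq]
      exact ⟨fun h => ⟨(Quotient.eq (r := U.1 k)).mpr h.1, Quotient.sound h.2⟩,
        fun h => ⟨(Quotient.eq (r := U.1 k)).mp h.1, Quotient.exact h.2⟩⟩
  have c3 : ∀ k, ((slf p).sp.F k).e (((slf p).p2.mapI A).1 k) (((slf p).p1.mapI A).1 k ⊓ ((slf p).sp.F k).Z) =
      CH (amw (W.F k).μ (W.F k).μ (p.π k) (p.π k)) (fun w => (Quotient.mk (A.1 k) w.2 : Quotient (A.1 k)))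
        (fun w => ((Quotient.mk (A.1 k) w.1 : Quotient (A.1 k)), (Quotient.mk (W.F k).Z w.1 : Quotient (W.F k).Z))) := by
    intro k
    apply ((slf p).sp.F k).e_congr
    · intro ω ω' _ _
      exact (Quotient.eq (r := A.1 k)).symm
    · intro ω ω' _ _
      rw [Prod.mk.injEq]
      exact ⟨fun h => ⟨Quotient.sound h.1, Quotient.sound h.2⟩, fun h => ⟨(Quotient.eq (r := A.1 k)).mp h.1,
        (Quotient.eq (r := (W.F k).Z)).mp h.2⟩⟩
  have c4 : ∀ k, ((slf p).sp.F k).e (((slf p).p1.mapI A).1 k) (((slf p).p2.mapI A).1 k ⊓ ((slf p).sp.F k).Z) =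
      CH (amw (W.F k).μ (W.F k).μ (p.π k) (p.π k)) (fun w => (Quotient.mk (A.1 k) w.1 : Quotient (A.1 k)))
        (fun w => ((Quotient.mk (A.1 k) w.2 : Quotient (A.1 k)), (Quotient.mk (W.F k).Z w.1 : Quotient (W.F k).Z))) := by
    intro k
    apply ((slf p).sp.F k).e_congr
    · intro ω ω' _ _
      exact (Quotient.eq (r := A.1 k)).symm
    · intro ω ω' _ _
      rw [Prod.mk.injEq]
      exact ⟨fun h => ⟨Quotient.sound h.1, Quotient.sound h.2⟩, fun h => ⟨(Quotient.eq (r := A.1 k)).mp h.1,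
        (Quotient.eq (r := (W.F k).Z)).mp h.2⟩⟩
  have c6 : ∀ k, bt k * (W.F k).n =
      CH (amw (W.F k).μ (W.F k).μ (p.π k) (p.π k)) (fun w => (Quotient.mk (A.1 k) w.2 : Quotient (A.1 k)))
        (fun w => ((Quotient.mk (U.1 k) (p.π k w.1) : Quotient (U.1 k)), (Quotient.mk (W.F k).Z w.1 : Quotient (W.F k).Z))) := by
    intro k
    have h1 : ((slf p).sp.F k).e (((slf p).p2.mapI A).1 k) (((slf p).p1.mapI (p.mapI U)).1 k ⊓ ((slf p).sp.F k).Z) =
      CH (amw (W.F k).μ (W.F k).μ (p.π k) (p.π k)) (fun w => (Quotient.mk (A.1 k) w.2 : Quotient (A.1 k)))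
        (fun w => ((Quotient.mk (U.1 k) (p.π k w.1) : Quotient (U.1 k)), (Quotient.mk (W.F k).Z w.1 : Quotient (W.F k).Z))) := by
      apply ((slf p).sp.F k).e_congr
      · intro ω ω' _ _
        exact (Quotient.eq (r := A.1 k)).symm
      · intro ω ω' _ _
        rw [Prod.mk.injEq]
        exact ⟨fun h => ⟨(Quotient.eq (r := U.1 k)).mpr h.1, (Quotient.eq (r := (W.F k).Z)).mpr h.2⟩,
          fun h => ⟨(Quotient.eq (r := U.1 k)).mp h.1, (Quotient.eq (r := (W.F k).Z)).mp h.2⟩⟩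
    rw [hbt]
    unfold Sp.rt
    rw [h1]
    exact div_mul_cancel₀ _ (hn k).ne'
  -- the estimate
  set a : ℕ → ℝ := fun k => (slf p).sp.rt ((slf p).p2.mapI A).1 ((slf p).p1.mapI A).1 k +
    (slf p).sp.rt ((slf p).p1.mapI A).1 ((slf p).p2.mapI A).1 k with ha
  have key : ∀ k, W.rt (p.mapI B).1 A.1 k + W.rt A.1 (p.mapI B).1 k + (r k)⁻¹ * W.rt (p.mapI B).1 (p.mapI U).1 k ≤
      a k + (r k)⁻¹ * bt k := by
    intro k
    have h1 := hs2 k
    rw [← c1 k, ← c2 k, ← c5 k, ← c6 k, ← c3 k, ← c4 k] at h1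
    have h2 : ∀ x : ℝ, x / (W.F k).n * (W.F k).n = x := fun x => div_mul_cancel₀ x (hn k).ne'
    have h3 : (W.rt (p.mapI B).1 A.1 k + W.rt A.1 (p.mapI B).1 k + (r k)⁻¹ * W.rt (p.mapI B).1 (p.mapI U).1 k) *
        (W.F k).n ≤ (a k + (r k)⁻¹ * bt k) * (W.F k).n := by
      have e1 : W.rt (p.mapI B).1 A.1 k * (W.F k).n = (W.F k).e ((p.mapI B).1 k) (A.1 k ⊓ (W.F k).Z) := h2 _
      have e2 : W.rt A.1 (p.mapI B).1 k * (W.F k).n = (W.F k).e (A.1 k) ((p.mapI B).1 k ⊓ (W.F k).Z) := h2 _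
      have e3 : W.rt (p.mapI B).1 (p.mapI U).1 k * (W.F k).n =
        (W.F k).e ((p.mapI B).1 k) ((p.mapI U).1 k ⊓ (W.F k).Z) := h2 _
      have e4 : a k * (W.F k).n =
          ((slf p).sp.F k).e (((slf p).p2.mapI A).1 k) (((slf p).p1.mapI A).1 k ⊓ ((slf p).sp.F k).Z) +
          ((slf p).sp.F k).e (((slf p).p1.mapI A).1 k) (((slf p).p2.mapI A).1 k ⊓ ((slf p).sp.F k).Z) := by
        show (_ / (W.F k).n + _ / (W.F k).n) * (W.F k).n = _
        rw [add_mul, h2, h2]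
      have e5 : (W.rt (p.mapI B).1 A.1 k + W.rt A.1 (p.mapI B).1 k + (r k)⁻¹ * W.rt (p.mapI B).1 (p.mapI U).1 k) *
        (W.F k).n = W.rt (p.mapI B).1 A.1 k * (W.F k).n + W.rt A.1 (p.mapI B).1 k * (W.F k).n +
          (r k)⁻¹ * (W.rt (p.mapI B).1 (p.mapI U).1 k * (W.F k).n) := by ring
      have e6 : (a k + (r k)⁻¹ * bt k) * (W.F k).n = a k * (W.F k).n + (r k)⁻¹ * (bt k * (W.F k).n) := by ring
      rw [e5, e6, e1, e2, e3, e4]
      exact h1
    exact le_of_mul_le_mul_right h3 (hn k)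
  have hUa : UB a := (UB_rt _ _).add (UB_rt _ _)
  refine ⟨cl B, ?_, ?_⟩
  · -- below `u`
    have h1 : p.map (cl B) ≤ p.map (cl U) := by
      rw [p.map_cl, p.map_cl, cl_le, Inf.le_def]
      obtain ⟨C, hC⟩ := hUa
      have h2 : Tendsto (fun k => (C + r k) * r k) UF (𝓝 0) := by
        have h3 := (hrt.const_add C).mul hrt
        rwa [mul_zero] at h3
      refine squeeze_zero' (Eventually.of_forall fun k => rt_nonneg _ _ k) ?_ h2
      filter_upwards [hC] with k hk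
      have h4 := key k
      have h5 := rt_nonneg (p.mapI B).1 A.1 k
      have h6 := rt_nonneg A.1 (p.mapI B).1 k
      have h7 := hrb k
      have h8 : (r k)⁻¹ * W.rt (p.mapI B).1 (p.mapI U).1 k ≤ C + r k := by
        have := le_abs_self (a k)
        linarith
      rwa [inv_mul_le_iff₀ (hr0 k), mul_comm] at h8
    exact p.map_le.mp h1
  · rw [p.map_cl, (slf p).p1.map_cl, (slf p).p2.map_cl, h_cl, h_cl, h_cl, h_cl, ← ul_add (UB_rt _ _) (UB_rt _ _),
      ← ul_add (UB_rt _ _) (UB_rt _ _)]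
    have h1 : ul (fun k => W.rt (p.mapI B).1 A.1 k + W.rt A.1 (p.mapI B).1 k) ≤ ul (fun k => a k + r k) := by
      apply ul_mono ((UB_rt _ _).add (UB_rt _ _)) (hUa.add (UB_of_tendsto hrt))
      refine Eventually.of_forall fun k => ?_
      have h2 := key k
      have h3 := hrb k
      have h4 : 0 ≤ (r k)⁻¹ * W.rt (p.mapI B).1 (p.mapI U).1 k :=
        mul_nonneg (inv_nonneg.mpr (hr0 k).le) (rt_nonneg _ _ k)
      show W.rt (p.mapI B).1 A.1 k + W.rt A.1 (p.mapI B).1 k ≤ a k + r k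
      linarith
    refine h1.trans ?_
    rw [ul_add hUa (UB_of_tendsto hrt), ul_eq hrt, add_zero]
    apply le_of_eq
    apply ul_congr
    refine Eventually.of_forall fun k => ?_
    show a k = _
    rw [ha]
    exact add_comm _ _

end

end Pool.Agent.Helper8.DSC
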