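import Pool.Agent.Helper31.EC.Am
import Pool.Agent.Helper8.RK.E6

/-! DESCENT, finite level: a variable of an extension is replaced by a function of the point of the space; the cost is
at most the cost of a second copy over the space (random selection, made deterministic). -/

set_option autoImplicit false

namespace Pool.Agent.Helper8.DSC

open Finset Pool.Agent.Helper69.RK Pool.Agent.Helper31.EC

noncomputable section

section prod

variable {Ω Ω' : Type} [Fintype Ω] [Fintype Ω'] (ν : Ω → Ω' → ℝ)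

/-- product weights on the selections -/
def pw (s : Ω → Ω') : ℝ := ∏ ω, ν ω (s ω)

omit [Fintype Ω'] in
theorem pw_nonneg (h : ∀ ω y, 0 ≤ ν ω y) (s : Ω → Ω') : 0 ≤ pw ν s := Finset.prod_nonneg fun _ _ => h _ _

open Classical in
theorem pw_marg (h1 : ∀ ω, ∑ y, ν ω y = 1) (ω : Ω) (y : Ω') :
    ∑ s : Ω → Ω', (if s ω = y then pw ν s else 0) = ν ω y := by
  have h2 : ∀ s : Ω → Ω', (if s ω = y then pw ν s else 0) =
      ∏ o, (if o = ω then (if s o = y then ν o (s o) else 0) else ν o (s o)) := by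
    intro s
    by_cases h : s ω = y
    · rw [if_pos h]
      unfold pw
      apply Finset.prod_congr rfl
      intro o _
      by_cases ho : o = ω
      · rw [if_pos ho, if_pos (by rw [ho]; exact h)]
      · rw [if_neg ho]
    · rw [if_neg h]
      symm
      apply Finset.prod_eq_zero (Finset.mem_univ ω)
      rw [if_pos rfl, if_neg h]
  have h3 : ∑ s : Ω → Ω', ∏ o, (if o = ω then (if s o = y then ν o (s o) else 0) else ν o (s o)) =
      ∏ o, ∑ x : Ω', (if o = ω then (if x = y then ν o x else 0) else ν o x) := by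
    rw [Finset.prod_univ_sum, Fintype.piFinset_univ]
  rw [Finset.sum_congr rfl fun s _ => h2 s, h3, Finset.prod_eq_single ω]
  · simp only [if_true]
    rw [Finset.sum_ite_eq' Finset.univ y (fun x => ν ω x), if_pos (Finset.mem_univ y)]
  · intro o _ ho
    simp only [if_neg ho]
    exact h1 o
  · intro h
    exact absurd (Finset.mem_univ _) h

open Classical in
theorem pw_sum (h1 : ∀ ω, ∑ y, ν ω y = 1) : ∑ s : Ω → Ω', pw ν s = 1 := by
  unfold pw
  have h3 : ∑ s : Ω → Ω', ∏ o, ν o (s o) = ∏ o, ∑ x : Ω', ν o x := by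
    rw [Finset.prod_univ_sum, Fintype.piFinset_univ]
  rw [h3, Finset.prod_congr rfl fun o _ => h1 o, Finset.prod_const_one]

end prod

section sel

variable {Ω Ω' : Type} [Fintype Ω] [Fintype Ω'] (π : Ω' → Ω) (μ : Ω' → ℝ)

open Classical in
/-- law of the point of the extension over the point of the space -/
def fib (y0 : Ω') (ω : Ω) (y : Ω') : ℝ :=
  if ms μ π ω = 0 then (if y = y0 then 1 else 0) else (if π y = ω then μ y / ms μ π ω else 0)

omit [Fintype Ω] in
theorem fib_nonneg (h0 : ∀ y, 0 ≤ μ y) (y0 : Ω') (ω : Ω) (y : Ω') : 0 ≤ fib π μ y0 ω y := by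
  unfold fib
  split_ifs
  · exact zero_le_one
  · exact le_rfl
  · exact div_nonneg (h0 y) (ms_nonneg μ π h0 ω)
  · exact le_rfl

omit [Fintype Ω] in
open Classical in
theorem fib_sum (y0 : Ω') (ω : Ω) : ∑ y, fib π μ y0 ω y = 1 := by
  unfold fib
  by_cases h : ms μ π ω = 0
  · simp only [if_pos h]
    rw [Finset.sum_ite_eq' Finset.univ y0 (fun _ => (1 : ℝ)), if_pos (Finset.mem_univ y0)]
  · simp only [if_neg h]
    have h2 : ∀ y, (if π y = ω then μ y / ms μ π ω else 0) = (e1_ind (π y = ω) * μ y) / ms μ π ω := by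
      intro y
      by_cases hy : π y = ω
      · rw [if_pos hy, e1_ind_pos hy, one_mul]
      · rw [if_neg hy, e1_ind_neg hy, zero_mul, zero_div]
    rw [Finset.sum_congr rfl fun y _ => h2 y, ← Finset.sum_div]
    exact div_self h

omit [Fintype Ω] in
theorem fib_supp (h0 : ∀ y, 0 ≤ μ y) (y0 : Ω') (y1 y : Ω') (h1 : μ y1 ≠ 0) (h : fib π μ y0 (π y1) y ≠ 0) :
    π y = π y1 ∧ μ y ≠ 0 := by
  classical
  unfold fib at h
  rw [if_neg (ms_pos μ π h0 y1 h1).ne'] at h
  by_cases hy : π y = π y1
  · refine ⟨hy, fun hc => h ?_⟩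
    rw [if_pos hy, hc, zero_div]
  · exact absurd (by rw [if_neg hy]) h

open Classical in
/-- entropies of a random selection are those of the amalgam -/
theorem sel_avg (h0 : ∀ y, 0 ≤ μ y) (y0 : Ω') {β γ : Type} (F : Ω' × Ω' → β) (G : Ω' × Ω' → γ) :
    ∑ s : Ω → Ω', pw (fib π μ y0) s * CH μ (fun y => F (y, s (π y))) (fun y => G (y, s (π y))) ≤
      CH (amw μ μ π π) F G := by
  -- the product space
  set lam : Ω' × (Ω → Ω') → ℝ := fun w => pw (fib π μ y0) w.2 * μ w.1 with hlam
  have hnn : ∀ w, 0 ≤ lam w := fun w => mul_nonneg (pw_nonneg _ (fib_nonneg π μ h0 y0) _) (h0 _)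
  set κ : Ω' × (Ω → Ω') → Ω' × Ω' := fun w => (w.1, w.2 (π w.1)) with hκ
  have hpush : push κ lam = amw μ μ π π := by
    funext z
    obtain ⟨x, y⟩ := z
    unfold push
    rw [Fintype.sum_prod_type]
    have h1 : ∀ (a : Ω') (inst : ∀ s : Ω → Ω', Decidable (κ (a, s) = (x, y))),
        ∑ s : Ω → Ω', @ite ℝ (κ (a, s) = (x, y)) (inst s) (lam (a, s)) 0 =
        if a = x then μ x * fib π μ y0 (π x) y else 0 := by
      intro a inst
      by_cases ha : a = x
      · subst ha
        rw [if_pos rfl, ← pw_marg (fib π μ y0) (fib_sum π μ y0) (π a) y, Finset.mul_sum]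
        apply Finset.sum_congr rfl
        intro s _
        by_cases hs : s (π a) = y
        · have e : κ (a, s) = (a, y) := by
            show (a, s (π a)) = (a, y)
            rw [hs]
          rw [if_pos hs, if_pos e]
          show pw (fib π μ y0) s * μ a = _
          ring
        · rw [if_neg hs, mul_zero, if_neg]
          intro h
          exact hs (congrArg Prod.snd h)
      · rw [if_neg ha]
        apply Finset.sum_eq_zero
        intro s _
        rw [if_neg]
        intro h
        exact ha (congrArg Prod.fst h)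
    refine (Finset.sum_congr rfl fun a _ => h1 a _).trans ?_
    rw [Finset.sum_ite_eq' Finset.univ x _, if_pos (Finset.mem_univ x)]
    unfold amw
    by_cases hx : μ x = 0
    · show μ x * fib π μ y0 (π x) y = e1_ind (π x = π y) * (μ x * μ y / ms μ π (π x))
      rw [hx]; simp
    · show μ x * fib π μ y0 (π x) y = e1_ind (π x = π y) * (μ x * μ y / ms μ π (π x))
      unfold fib
      rw [if_neg (ms_pos μ π h0 x hx).ne']
      by_cases hy : π y = π x
      · rw [if_pos hy, e1_ind_pos hy.symm]; ring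
      · rw [if_neg hy, e1_ind_neg (fun h => hy h.symm)]; ring
  have h1 := (Pool.Agent.Helper70.RK.st_E5.1 (Ω' × Ω') (Ω' × (Ω → Ω')) β γ lam κ F G hnn).2.2
  rw [hpush] at h1
  rw [h1]
  have h2 := (st_E2 st_E1).2.1 (Ω' × (Ω → Ω')) β γ (γ × (Ω → Ω')) lam (fun w => F (κ w)) (fun w => G (κ w))
    (fun w => (G (κ w), w.2)) hnn (fun w w' _ _ h => congrArg Prod.fst h)
  refine le_trans (le_of_eq ?_) h2
  have h3 := st_E6 Ω' (Ω → Ω') β γ lam (fun w => F (κ w)) (fun w => G (κ w)) hnn
  rw [h3]
  apply Finset.sum_congr rfl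
  intro s _
  exact (Pool.Agent.Helper70.RK.st_E5.2 Ω' β γ μ (fun y => F (y, s (π y))) (fun y => G (y, s (π y)))
    (pw (fib π μ y0) s) (pw_nonneg _ (fib_nonneg π μ h0 y0) _) h0).symm

end sel

end

end Pool.Agent.Helper8.DSC
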