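import Pool.Agent.Helper31.EC.AmS
import Pool.Agent.Helper8.DSC.Fin

/-! DESCENT: an information of an extension is as close to an information of the space as to its own copy over the
space. -/

set_option autoImplicit false

namespace Pool.Agent.Helper8.DSC

open Finset Filter Topology Pool.Agent.Helper69.RK Pool.Agent.Helper31.EC

noncomputable section

open Sp

section fin

variable {Ω Ω' : Type} [Fintype Ω] [Fintype Ω'] (π : Ω' → Ω) (μ : Ω' → ℝ)

/-- a good selection -/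
theorem exists_sel (h0 : ∀ y, 0 ≤ μ y) (y0 : Ω') {β γ β' γ' : Type} (F : Ω' × Ω' → β) (G : Ω' × Ω' → γ)
    (F' : Ω' × Ω' → β') (G' : Ω' × Ω' → γ') : ∃ s : Ω → Ω',
      (∀ y, μ y ≠ 0 → π (s (π y)) = π y ∧ μ (s (π y)) ≠ 0) ∧
      CH μ (fun y => F (y, s (π y))) (fun y => G (y, s (π y))) +
        CH μ (fun y => F' (y, s (π y))) (fun y => G' (y, s (π y))) ≤
      CH (amw μ μ π π) F G + CH (amw μ μ π π) F' G' := by
  classical
  set R := CH (amw μ μ π π) F G + CH (amw μ μ π π) F' G' with hR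
  set c : (Ω → Ω') → ℝ := fun s => CH μ (fun y => F (y, s (π y))) (fun y => G (y, s (π y))) +
        CH μ (fun y => F' (y, s (π y))) (fun y => G' (y, s (π y))) with hc
  have h1 : ∑ s, pw (fib π μ y0) s * c s ≤ R := by
    have h2 := sel_avg π μ h0 y0 F G
    have h3 := sel_avg π μ h0 y0 F' G'
    have h4 : ∑ s, pw (fib π μ y0) s * c s =
        ∑ s : Ω → Ω', pw (fib π μ y0) s * CH μ (fun y => F (y, s (π y))) (fun y => G (y, s (π y))) +
        ∑ s : Ω → Ω', pw (fib π μ y0) s * CH μ (fun y => F' (y, s (π y))) (fun y => G' (y, s (π y))) := by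
      rw [← Finset.sum_add_distrib]
      exact Finset.sum_congr rfl fun s _ => mul_add _ _ _
    rw [h4]
    exact add_le_add h2 h3
  have hn : ∀ s, 0 ≤ pw (fib π μ y0) s := pw_nonneg _ (fib_nonneg π μ h0 y0)
  have hs : ∑ s, pw (fib π μ y0) s = 1 := pw_sum _ (fib_sum π μ y0)
  have h5 : ∃ s, pw (fib π μ y0) s ≠ 0 ∧ c s ≤ R := by
    by_contra hcon
    push Not at hcon
    have h6 : ∑ s, pw (fib π μ y0) s * R < ∑ s, pw (fib π μ y0) s * c s := by
      apply Finset.sum_lt_sum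
      · intro s _
        by_cases h7 : pw (fib π μ y0) s = 0
        · rw [h7, zero_mul, zero_mul]
        · exact mul_le_mul_of_nonneg_left (hcon s h7).le (hn s)
      · by_contra h8
        push Not at h8
        have h9 : ∀ s, pw (fib π μ y0) s = 0 := by
          intro s
          by_contra h7
          have h10 := h8 s (Finset.mem_univ s)
          have h11 := mul_lt_mul_of_pos_left (hcon s h7) (lt_of_le_of_ne (hn s) (Ne.symm h7))
          linarith
        rw [Finset.sum_eq_zero fun s _ => h9 s] at hs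
        exact zero_ne_one hs
    rw [← Finset.sum_mul, hs, one_mul] at h6
    linarith
  obtain ⟨s, h6, h7⟩ := h5
  refine ⟨s, fun y hy => ?_, h7⟩
  have h8 : fib π μ y0 (π y) (s (π y)) ≠ 0 := by
    intro h9
    exact h6 (Finset.prod_eq_zero (Finset.mem_univ (π y)) h9)
  exact fib_supp π μ h0 y0 y (s (π y)) hy h8

end fin

open Classical in
/-- the values of a function in a cell are values in a cell of another space -/
theorem nvf_le_sel {Ω Ω' α γ γ' : Type} [Fintype Ω] [Fintype Ω'] (μ : Ω → ℝ) (f : Ω → α) (g : Ω → γ) (ω : Ω)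
    (μ' : Ω' → ℝ) (f' : Ω' → α) (g' : Ω' → γ') (ω' : Ω')
    (h : ∀ a, μ a ≠ 0 → g a = g ω → ∃ b, μ' b ≠ 0 ∧ g' b = g' ω' ∧ f' b = f a) : nvf μ f g ω ≤ nvf μ' f' g' ω' := by
  unfold nvf
  apply Finset.card_le_card
  intro q hq
  rw [Finset.mem_image] at hq ⊢
  obtain ⟨a, ha, rfl⟩ := hq
  rw [Finset.mem_filter] at ha
  obtain ⟨b, h1, h2, h3⟩ := h a ha.2.1 ha.2.2
  exact ⟨b, Finset.mem_filter.mpr ⟨Finset.mem_univ _, h1, h2⟩, h3⟩

variable {W S : Sp}

/-- two copies of `W` over the point of `S` -/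
def slf (p : Pj W S) : AmD W W where
  α := fun k => (S.F k).Ω
  f := p.π
  g := p.π
  law := fun _ _ => rfl
  Zr := fun k => (S.F k).Z
  hZ1 := p.hZ
  hZ2 := p.hZ
  hn := fun _ => rfl

/-- the informations of the space are common to the two copies -/
theorem slf_comm (p : Pj W S) (y : S.L) : (slf p).p1.map (p.map y) = (slf p).p2.map (p.map y) := by
  induction y using Sp.cl_ind with | _ A
  have key : ∀ k (w w' : ((slf p).sp.F k).Ω), ((slf p).sp.F k).μ w ≠ 0 → ((slf p).sp.F k).μ w' ≠ 0 →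
      (A.1 k (p.π k w.1) (p.π k w'.1) ↔ A.1 k (p.π k w.2) (p.π k w'.2)) := by
    intro k w w' h h'
    have a : p.π k w.1 = p.π k w.2 := ((slf p).supp k w h).1
    have a' : p.π k w'.1 = p.π k w'.2 := ((slf p).supp k w' h').1
    rw [a, a']
  rw [p.map_cl, (slf p).p1.map_cl, (slf p).p2.map_cl]
  apply le_antisymm
  · rw [Sp.cl_le, Inf.le_def]
    apply Tendsto.congr' _ tendsto_const_nhds
    refine Eventually.of_forall fun k => ?_
    unfold Sp.rt
    rw [((slf p).sp.F k).e_zero, zero_div]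
    intro w w' h h' hw
    exact (key k w w' h h').mpr hw.1
  · rw [Sp.cl_le, Inf.le_def]
    apply Tendsto.congr' _ tendsto_const_nhds
    refine Eventually.of_forall fun k => ?_
    unfold Sp.rt
    rw [((slf p).sp.F k).e_zero, zero_div]
    intro w w' h h' hw
    exact (key k w w' h h').mp hw.1

/-- **DESCENT** -/
theorem desc (p : Pj W S) (x : W.L) : ∃ y : S.L, h (p.map y) x + h x (p.map y) ≤
    h ((slf p).p1.map x) ((slf p).p2.map x) + h ((slf p).p2.map x) ((slf p).p1.map x) := by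
  induction x using Sp.cl_ind with | _ A
  -- the selections
  have hsel : ∀ k, ∃ s : (S.F k).Ω → (W.F k).Ω, (∀ y, (W.F k).μ y ≠ 0 → p.π k (s (p.π k y)) = p.π k y ∧
      (W.F k).μ (s (p.π k y)) ≠ 0) ∧
      CH (W.F k).μ (fun y => (Quotient.mk (A.1 k) (s (p.π k y)) : Quotient (A.1 k)))
        (fun y => ((Quotient.mk (A.1 k) y : Quotient (A.1 k)), (Quotient.mk (W.F k).Z y : Quotient (W.F k).Z))) +
      CH (W.F k).μ (fun y => (Quotient.mk (A.1 k) y : Quotient (A.1 k)))
        (fun y => ((Quotient.mk (A.1 k) (s (p.π k y)) : Quotient (A.1 k)), (Quotient.mk (W.F k).Z y : Quotient (W.F k).Z))) ≤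
      CH (amw (W.F k).μ (W.F k).μ (p.π k) (p.π k)) (fun w => (Quotient.mk (A.1 k) w.2 : Quotient (A.1 k)))
        (fun w => ((Quotient.mk (A.1 k) w.1 : Quotient (A.1 k)), (Quotient.mk (W.F k).Z w.1 : Quotient (W.F k).Z))) +
      CH (amw (W.F k).μ (W.F k).μ (p.π k) (p.π k)) (fun w => (Quotient.mk (A.1 k) w.1 : Quotient (A.1 k)))
        (fun w => ((Quotient.mk (A.1 k) w.2 : Quotient (A.1 k)), (Quotient.mk (W.F k).Z w.1 : Quotient (W.F k).Z))) := by
    intro k
    have hne : Nonempty (W.F k).Ω := by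
      by_contra hc
      rw [not_nonempty_iff] at hc
      have h1 := (W.F k).ms
      unfold mass at h1
      rw [Finset.univ_eq_empty, Finset.sum_empty] at h1
      exact zero_ne_one h1
    obtain ⟨y0⟩ := hne
    exact exists_sel (p.π k) (W.F k).μ (W.F k).nn y0 (fun w => (Quotient.mk (A.1 k) w.2 : Quotient (A.1 k)))
      (fun w => ((Quotient.mk (A.1 k) w.1 : Quotient (A.1 k)), (Quotient.mk (W.F k).Z w.1 : Quotient (W.F k).Z)))
      (fun w => (Quotient.mk (A.1 k) w.1 : Quotient (A.1 k)))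
      (fun w => ((Quotient.mk (A.1 k) w.2 : Quotient (A.1 k)), (Quotient.mk (W.F k).Z w.1 : Quotient (W.F k).Z)))
  choose s hs1 hs2 using hsel
  -- the support
  have hsup : ∀ k ω, (S.F k).μ ω ≠ 0 → p.π k (s k ω) = ω ∧ (W.F k).μ (s k ω) ≠ 0 := by
    intro k ω hω
    obtain ⟨y, hy, rfl⟩ := p.exists_lift k ω hω
    exact hs1 k y hy
  -- the information
  have hB : S.VB (fun k => Setoid.ker fun ω => (Quotient.mk (A.1 k) (s k ω) : Quotient (A.1 k))) := by
    obtain ⟨C, hC⟩ := A.2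
    refine ⟨C, ?_⟩
    filter_upwards [hC] with k hk ω hω
    obtain ⟨e1, e2⟩ := hsup k ω hω
    have h1 := hk (s k ω) e2
    rw [p.hn k] at h1
    refine le_trans ?_ h1
    rw [Nat.cast_le, Sp.nv_ker]
    unfold Sp.nv
    apply nvf_le_sel
    intro ω' h2 h3
    obtain ⟨e3, e4⟩ := hsup k ω' h2
    refine ⟨s k ω', e4, Quotient.sound ?_, rfl⟩
    show (W.F k).Z (s k ω') (s k ω)
    rw [p.hZ k _ _ e4 e2, e3, e1]
    exact Quotient.exact h3
  obtain ⟨B, eB⟩ : ∃ B : S.Inf, B.1 = fun k => Setoid.ker fun ω => (Quotient.mk (A.1 k) (s k ω) : Quotient (A.1 k)) :=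
    ⟨⟨_, hB⟩, rfl⟩
  refine ⟨cl B, ?_⟩
  rw [p.map_cl, (slf p).p1.map_cl, (slf p).p2.map_cl, h_cl, h_cl, h_cl, h_cl, ← ul_add (UB_rt _ _) (UB_rt _ _),
    ← ul_add (UB_rt _ _) (UB_rt _ _)]
  apply ul_mono ((UB_rt _ _).add (UB_rt _ _)) ((UB_rt _ _).add (UB_rt _ _))
  refine Eventually.of_forall fun k => ?_
  have h1 := hs2 k
  -- the four entropies
  have eB' : (p.mapI B).1 k = Setoid.comap (p.π k)
      (Setoid.ker fun ω => (Quotient.mk (A.1 k) (s k ω) : Quotient (A.1 k))) := by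
    show Setoid.comap (p.π k) (B.1 k) = _
    rw [eB]
  have c1 : (W.F k).e ((p.mapI B).1 k) (A.1 k ⊓ (W.F k).Z) =
      CH (W.F k).μ (fun y => (Quotient.mk (A.1 k) (s k (p.π k y)) : Quotient (A.1 k)))
        (fun y => ((Quotient.mk (A.1 k) y : Quotient (A.1 k)), (Quotient.mk (W.F k).Z y : Quotient (W.F k).Z))) := by
    rw [eB']
    apply (W.F k).e_congr
    · intro ω ω' _ _
      exact Iff.rfl
    · intro ω ω' _ _
      rw [Prod.mk.injEq]
      exact ⟨fun h => ⟨Quotient.sound h.1, Quotient.sound h.2⟩, fun h => ⟨Quotient.exact h.1, Quotient.exact h.2⟩⟩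
  have c2 : (W.F k).e (A.1 k) ((p.mapI B).1 k ⊓ (W.F k).Z) =
      CH (W.F k).μ (fun y => (Quotient.mk (A.1 k) y : Quotient (A.1 k)))
        (fun y => ((Quotient.mk (A.1 k) (s k (p.π k y)) : Quotient (A.1 k)), (Quotient.mk (W.F k).Z y : Quotient (W.F k).Z))) := by
    rw [eB']
    apply (W.F k).e_congr
    · intro ω ω' _ _
      exact (Quotient.eq (r := A.1 k)).symm
    · intro ω ω' _ _
      rw [Prod.mk.injEq]
      exact ⟨fun h => ⟨h.1, Quotient.sound h.2⟩, fun h => ⟨h.1, Quotient.exact h.2⟩⟩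
  have c3 : ((slf p).sp.F k).e (((slf p).p2.mapI A).1 k) (((slf p).p1.mapI A).1 k ⊓ ((slf p).sp.F k).Z) =
      CH (amw (W.F k).μ (W.F k).μ (p.π k) (p.π k)) (fun w => (Quotient.mk (A.1 k) w.2 : Quotient (A.1 k)))
        (fun w => ((Quotient.mk (A.1 k) w.1 : Quotient (A.1 k)), (Quotient.mk (W.F k).Z w.1 : Quotient (W.F k).Z))) := by
    apply ((slf p).sp.F k).e_congr
    · intro ω ω' _ _
      exact (Quotient.eq (r := A.1 k)).symm
    · intro ω ω' _ _
      rw [Prod.mk.injEq]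
      exact ⟨fun h => ⟨Quotient.sound h.1, Quotient.sound h.2⟩, fun h => ⟨(Quotient.eq (r := A.1 k)).mp h.1,
        (Quotient.eq (r := (W.F k).Z)).mp h.2⟩⟩
  have c4 : ((slf p).sp.F k).e (((slf p).p1.mapI A).1 k) (((slf p).p2.mapI A).1 k ⊓ ((slf p).sp.F k).Z) =
      CH (amw (W.F k).μ (W.F k).μ (p.π k) (p.π k)) (fun w => (Quotient.mk (A.1 k) w.1 : Quotient (A.1 k)))
        (fun w => ((Quotient.mk (A.1 k) w.2 : Quotient (A.1 k)), (Quotient.mk (W.F k).Z w.1 : Quotient (W.F k).Z))) := by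
    apply ((slf p).sp.F k).e_congr
    · intro ω ω' _ _
      exact (Quotient.eq (r := A.1 k)).symm
    · intro ω ω' _ _
      rw [Prod.mk.injEq]
      exact ⟨fun h => ⟨Quotient.sound h.1, Quotient.sound h.2⟩, fun h => ⟨(Quotient.eq (r := A.1 k)).mp h.1,
        (Quotient.eq (r := (W.F k).Z)).mp h.2⟩⟩
  unfold Sp.rt
  rw [c1, c2, c3, c4, ← add_div, ← add_div]
  have h2 : ((slf p).sp.F k).n = (W.F k).n := rfl
  rw [h2]
  apply div_le_div_of_nonneg_right _ (W.F k).pos.le
  linarith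

/-- exact descent: an information of the extension which agrees with its copy over the space comes from the space -/
theorem desc_eq (p : Pj W S) (x : W.L) (hx : (slf p).p1.map x = (slf p).p2.map x) : ∃ y : S.L, p.map y = x := by
  obtain ⟨y, hy⟩ := desc p x
  rw [hx, h_zero le_rfl, add_zero] at hy
  have h1 := h_nonneg (p.map y) x
  have h2 := h_nonneg x (p.map y)
  refine ⟨y, le_antisymm ?_ ?_⟩
  · rw [← h_le_zero_iff]; linarith
  · rw [← h_le_zero_iff]; linarith

end

end Pool.Agent.Helper8.DSC
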